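import Mathlib

/-!
# Far-from-far graphs in the dense model: the dual problem need not reduce to tolerant testing

We construct one graph property `P` such that for every `ε ∈ (0, 1/100)` and all large `v`,
with `δ = ε * (v choose 2)`, some graph in `F_δ (F_δ (P_v))` is at distance at least `δ - 1`
from `P_v` (the largest value that is possible for integer distances).
-/

namespace Pool.Agent.Results.MP_cccbef_lc.FarFromFar

open Finset

/-- The edit distance `Δ(G,H) = |E(G) ∆ E(H)|` of two graphs on the vertex set `Fin v`. -/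
noncomputable def editDist {v : ℕ} (G H : SimpleGraph (Fin v)) : ℕ :=
  (symmDiff G.edgeSet H.edgeSet).ncard

/-- The distance `Δ(G,S)` of a graph to a set of graphs: the infimum (minimum, for nonempty `S`) of
the distances `Δ(G,H)`, `H ∈ S`; it is `⊤` (that is `+∞`) for `S = ∅`. -/
noncomputable def distTo {v : ℕ} (G : SimpleGraph (Fin v)) (S : Set (SimpleGraph (Fin v))) :
    EReal :=
  ⨅ H ∈ S, ((editDist G H : ℝ) : EReal)

/-- `F_δ(S)`: the graphs that are `δ`-far from `S`. -/
def far {v : ℕ} (δ : ℝ) (S : Set (SimpleGraph (Fin v))) : Set (SimpleGraph (Fin v)) :=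
  {G | (δ : EReal) ≤ distTo G S}

/-- A graph property: for every `v` a set of graphs on `v` vertices, closed under isomorphism. -/
structure GraphProperty where
  /-- the graphs on `v` vertices having the property -/
  graphs : ∀ v : ℕ, Set (SimpleGraph (Fin v))
  /-- closure under isomorphism -/
  iso_closed : ∀ (v : ℕ) (G H : SimpleGraph (Fin v)), Nonempty (G ≃g H) →
    G ∈ graphs v → H ∈ graphs v

/-- The absolute distance `δ = ε * (v choose 2)` for the proximity parameter `ε`. -/
noncomputable def prox (ε : ℝ) (v : ℕ) : ℝ := ε * (v.choose 2 : ℝ)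

/-- The dual problem of `P` reduces to tolerant testing. -/
def DualReducesToTolerant (P : GraphProperty) : Prop :=
  ∃ ε₀ : ℝ, 0 < ε₀ ∧ ∀ ε : ℝ, 0 < ε → ε ≤ ε₀ → ∃ α : ℝ, α < 1 ∧ ∃ v₀ : ℕ, ∀ v ≥ v₀,
    far (prox ε v) (far (prox ε v) (P.graphs v)) ⊆
      {G | distTo G (P.graphs v) ≤ ((α * prox ε v : ℝ) : EReal)}

/-! ### Basic facts on the edit distance -/

section basic

variable {v : ℕ}

lemma editDist_comm (G H : SimpleGraph (Fin v)) : editDist G H = editDist H G := by
  unfold editDist; rw [symmDiff_comm]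

lemma editDist_self (G : SimpleGraph (Fin v)) : editDist G G = 0 := by
  unfold editDist; simp

lemma editDist_triangle (G H K : SimpleGraph (Fin v)) :
    editDist G K ≤ editDist G H + editDist H K := by
  unfold editDist
  refine le_trans (Set.ncard_le_ncard ?_ (Set.toFinite _)) (Set.ncard_union_le _ _)
  exact symmDiff_triangle _ _ _

lemma card_le_add_editDist (G H : SimpleGraph (Fin v)) :
    G.edgeSet.ncard ≤ H.edgeSet.ncard + editDist G H := by
  unfold editDist
  refine le_trans (Set.ncard_le_ncard ?_ (Set.toFinite _)) (Set.ncard_union_le _ _)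
  intro e he
  by_cases h : e ∈ H.edgeSet
  · exact Or.inl h
  · exact Or.inr (Or.inl ⟨he, h⟩)

lemma comap_edgeSet (σ : Equiv.Perm (Fin v)) (G : SimpleGraph (Fin v)) :
    (G.comap σ).edgeSet = (Sym2.map σ) ⁻¹' G.edgeSet := by
  ext e
  induction e using Sym2.ind with
  | _ a b => simp

lemma sym2_map_bij (σ : Equiv.Perm (Fin v)) : Function.Bijective (Sym2.map σ) := by
  refine ⟨Sym2.map.injective σ.injective, ?_⟩
  intro e
  refine ⟨Sym2.map σ.symm e, ?_⟩
  rw [Sym2.map_map]
  simp

lemma ncard_preimage (σ : Equiv.Perm (Fin v)) (S : Set (Sym2 (Fin v))) :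
    ((Sym2.map σ) ⁻¹' S).ncard = S.ncard := by
  have h := sym2_map_bij σ
  rw [← Set.ncard_image_of_injective _ h.1, Set.image_preimage_eq _ h.2]

lemma editDist_comap (σ : Equiv.Perm (Fin v)) (G H : SimpleGraph (Fin v)) :
    editDist (G.comap σ) (H.comap σ) = editDist G H := by
  unfold editDist
  rw [comap_edgeSet, comap_edgeSet]
  have : symmDiff ((Sym2.map σ) ⁻¹' G.edgeSet) ((Sym2.map σ) ⁻¹' H.edgeSet)
      = (Sym2.map σ) ⁻¹' (symmDiff G.edgeSet H.edgeSet) := by
    ext e; simp [Set.mem_symmDiff]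
  rw [this, ncard_preimage]

lemma card_comap (σ : Equiv.Perm (Fin v)) (G : SimpleGraph (Fin v)) :
    (G.comap σ).edgeSet.ncard = G.edgeSet.ncard := by
  rw [comap_edgeSet, ncard_preimage]

lemma ncard_top : (⊤ : SimpleGraph (Fin v)).edgeSet.ncard = v.choose 2 := by
  classical
  rw [← SimpleGraph.coe_edgeFinset, Set.ncard_coe_finset,
    SimpleGraph.card_edgeFinset_top_eq_card_choose_two, Fintype.card_fin]

/-- one can delete any admissible number of edges -/
lemma exists_remove (H : SimpleGraph (Fin v)) (k : ℕ) (hk : k ≤ H.edgeSet.ncard) :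
    ∃ P : SimpleGraph (Fin v), editDist H P = k ∧ P.edgeSet.ncard = H.edgeSet.ncard - k := by
  obtain ⟨S, hS, hc⟩ := Set.exists_subset_card_eq (s := H.edgeSet) (n := H.edgeSet.ncard - k)
    (Nat.sub_le _ _)
  have hP : (SimpleGraph.fromEdgeSet S).edgeSet = S := by
    rw [SimpleGraph.edgeSet_fromEdgeSet]
    ext e
    constructor
    · exact fun h => h.1
    · intro h
      exact ⟨h, fun hd => H.not_isDiag_of_mem_edgeSet (hS h) hd⟩
  refine ⟨SimpleGraph.fromEdgeSet S, ?_, ?_⟩
  · unfold editDist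
    rw [hP]
    have : symmDiff H.edgeSet S = H.edgeSet \ S := by
      ext e
      simp only [Set.mem_symmDiff, Set.mem_sdiff]
      constructor
      · rintro (h | h)
        · exact h
        · exact absurd (hS h.1) h.2
      · exact fun h => Or.inl h
    rw [this, Set.ncard_sdiff hS (Set.toFinite _), hc]
    omega
  · rw [hP, hc]

/-- one can add any admissible number of edges -/
lemma exists_add (H : SimpleGraph (Fin v)) (k : ℕ) (hk : H.edgeSet.ncard + k ≤ v.choose 2) :
    ∃ P : SimpleGraph (Fin v), editDist H P = k ∧ P.edgeSet.ncard = H.edgeSet.ncard + k := by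
  have hsub : H.edgeSet ⊆ (⊤ : SimpleGraph (Fin v)).edgeSet :=
    SimpleGraph.edgeSet_mono le_top
  have hc0 : ((⊤ : SimpleGraph (Fin v)).edgeSet \ H.edgeSet).ncard
      = v.choose 2 - H.edgeSet.ncard := by
    rw [Set.ncard_sdiff hsub (Set.toFinite _), ncard_top]
  obtain ⟨S, hS, hc⟩ := Set.exists_subset_card_eq
    (s := (⊤ : SimpleGraph (Fin v)).edgeSet \ H.edgeSet) (n := k) (by rw [hc0]; omega)
  have hP : (SimpleGraph.fromEdgeSet (H.edgeSet ∪ S)).edgeSet = H.edgeSet ∪ S := by
    rw [SimpleGraph.edgeSet_fromEdgeSet]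
    ext e
    constructor
    · exact fun h => h.1
    · intro h
      refine ⟨h, fun hd => ?_⟩
      rcases h with h | h
      · exact H.not_isDiag_of_mem_edgeSet h hd
      · exact (⊤ : SimpleGraph (Fin v)).not_isDiag_of_mem_edgeSet (hS h).1 hd
  have hdisj : Disjoint H.edgeSet S := by
    rw [Set.disjoint_left]
    intro e he hs
    exact (hS hs).2 he
  refine ⟨SimpleGraph.fromEdgeSet (H.edgeSet ∪ S), ?_, ?_⟩
  · unfold editDist
    rw [hP]
    have : symmDiff H.edgeSet (H.edgeSet ∪ S) = S := by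
      ext e
      have hd : e ∈ H.edgeSet → e ∉ S := fun h => Set.disjoint_left.mp hdisj h
      simp only [Set.mem_symmDiff, Set.mem_union]
      tauto
    rw [this, hc]
  · rw [hP, Set.ncard_union_eq hdisj (Set.toFinite _) (Set.toFinite _), hc]

end basic

/-! ### A greedy choice of pairwise far graphs -/

/-- The Hamming ball bound (one exponential moment). -/
lemma ball_bound {α : Type*} [DecidableEq α] (E T : Finset α) (hT : T ⊆ E) (D : ℕ) :
    #{S ∈ E.powerset | #(symmDiff S T) ≤ D} * 8 ^ (#E - D) ≤ 9 ^ #E := by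
  have hsum : ∑ S ∈ E.powerset, 8 ^ (#E - #(symmDiff S T)) = 9 ^ #E := by
    have h1 : ∑ S ∈ E.powerset, 8 ^ (#E - #(symmDiff S T))
        = ∑ S ∈ E.powerset, 8 ^ (#E - #S) := by
      refine Finset.sum_bij' (fun S _ => symmDiff S T) (fun S _ => symmDiff S T) ?_ ?_ ?_ ?_ ?_
      · intro S hS
        rw [mem_powerset] at hS ⊢
        exact symmDiff_le (by simpa using hS.trans subset_union_right)
          (by simpa using hT.trans subset_union_right)
      · intro S hS
        rw [mem_powerset] at hS ⊢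
        exact symmDiff_le (by simpa using hS.trans subset_union_right)
          (by simpa using hT.trans subset_union_right)
      · intro S _
        simp
      · intro S _
        simp
      · intro S _
        rfl
    rw [h1]
    have h2 := Finset.sum_pow_mul_eq_add_pow (1 : ℕ) 8 E
    simpa using h2
  calc #{S ∈ E.powerset | #(symmDiff S T) ≤ D} * 8 ^ (#E - D)
      = ∑ S ∈ E.powerset with #(symmDiff S T) ≤ D, 8 ^ (#E - D) := by
        rw [Finset.sum_const, smul_eq_mul]
    _ ≤ ∑ S ∈ E.powerset with #(symmDiff S T) ≤ D, 8 ^ (#E - #(symmDiff S T)) := by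
        refine Finset.sum_le_sum ?_
        intro S hS
        rw [mem_filter] at hS
        exact Nat.pow_le_pow_right (by norm_num) (by omega)
    _ ≤ ∑ S ∈ E.powerset, 8 ^ (#E - #(symmDiff S T)) :=
        Finset.sum_le_sum_of_subset (Finset.filter_subset _ _)
    _ = 9 ^ #E := hsum

lemma exists_far_finset {α : Type*} [DecidableEq α] (E : Finset α) (C : Finset (Finset α))
    (hC : ∀ T ∈ C, T ⊆ E) (D : ℕ) (h : #C * 9 ^ #E < 2 ^ #E * 8 ^ (#E - D)) :
    ∃ S ⊆ E, ∀ T ∈ C, D < #(symmDiff S T) := by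
  by_contra hcon
  push Not at hcon
  have hcover : E.powerset ⊆ C.biUnion (fun T => {S ∈ E.powerset | #(symmDiff S T) ≤ D}) := by
    intro S hS
    obtain ⟨T, hT, hle⟩ := hcon S (mem_powerset.mp hS)
    exact mem_biUnion.mpr ⟨T, hT, mem_filter.mpr ⟨hS, hle⟩⟩
  have h1 : 2 ^ #E ≤ ∑ T ∈ C, #{S ∈ E.powerset | #(symmDiff S T) ≤ D} := by
    rw [← card_powerset]
    exact (card_le_card hcover).trans card_biUnion_le
  have h2 : 2 ^ #E * 8 ^ (#E - D) ≤ #C * 9 ^ #E := by
    calc 2 ^ #E * 8 ^ (#E - D)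
        ≤ (∑ T ∈ C, #{S ∈ E.powerset | #(symmDiff S T) ≤ D}) * 8 ^ (#E - D) :=
          Nat.mul_le_mul_right _ h1
      _ = ∑ T ∈ C, #{S ∈ E.powerset | #(symmDiff S T) ≤ D} * 8 ^ (#E - D) := by
          rw [Finset.sum_mul]
      _ ≤ ∑ T ∈ C, 9 ^ #E := Finset.sum_le_sum (fun T hT => ball_bound E T (hC T hT) D)
      _ = #C * 9 ^ #E := by rw [Finset.sum_const, smul_eq_mul]
  omega

lemma pow_eight_le (v : ℕ) (hv : 64 ≤ v) : v ^ 8 ≤ 2 ^ (v - 1) := by
  induction v, hv using Nat.le_induction with
  | base => norm_num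
  | succ n hn ih =>
    have h1 : (64 * (n + 1)) ^ 8 ≤ (65 * n) ^ 8 := Nat.pow_le_pow_left (by omega) 8
    have h2 : (n + 1) ^ 8 ≤ 2 * n ^ 8 := by
      have h3 : (64 * (n + 1)) ^ 8 = 64 ^ 8 * (n + 1) ^ 8 := by ring
      have h4 : (65 * n) ^ 8 = 65 ^ 8 * n ^ 8 := by ring
      rw [h3, h4] at h1
      have h5 : 65 ^ 8 * n ^ 8 ≤ 64 ^ 8 * (2 * n ^ 8) := by
        have : (65 : ℕ) ^ 8 ≤ 64 ^ 8 * 2 := by norm_num
        calc 65 ^ 8 * n ^ 8 ≤ (64 ^ 8 * 2) * n ^ 8 := Nat.mul_le_mul_right _ this
          _ = 64 ^ 8 * (2 * n ^ 8) := by ring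
      exact Nat.le_of_mul_le_mul_left (h1.trans h5) (by norm_num)
    have h6 : n + 1 - 1 = (n - 1) + 1 := by omega
    rw [h6, pow_succ]
    calc (n + 1) ^ 8 ≤ 2 * n ^ 8 := h2
      _ ≤ 2 * 2 ^ (n - 1) := Nat.mul_le_mul_left _ ih
      _ = 2 ^ (n - 1) * 2 := by ring

/-- the count needed in the greedy choice -/
lemma numeric (v : ℕ) (hv : 64 ≤ v) (n : ℕ) (hn : n ≤ v.choose 2 + 2) :
    n * v.factorial * 9 ^ (v.choose 2) <
      2 ^ (v.choose 2) * 8 ^ (v.choose 2 - v.choose 2 / 25) := by
  set N := v.choose 2 with hN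
  have hN2 : N * 2 = v * (v - 1) := by
    rw [hN, Nat.choose_two_right]
    exact Nat.div_mul_cancel (Nat.even_mul_pred_self v).two_dvd
  have hNpos : 0 < N := by
    rw [hN]; exact Nat.choose_pos (by omega)
  -- (n * v!)^2 ≤ 2^N
  have hA : (n * v.factorial) ^ 2 ≤ 2 ^ N := by
    have h1 : n ≤ v ^ 2 := by
      have : N + 2 ≤ v * v := by
        have : v * (v - 1) + v = v * v := by
          cases v with
          | zero => omega
          | succ k => simp; ring
        omega
      rw [sq]; omega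
    have h2 : v.factorial ≤ v ^ v := Nat.factorial_le_pow v
    have h3 : n * v.factorial ≤ v ^ (2 * v) := by
      calc n * v.factorial ≤ v ^ 2 * v ^ v := Nat.mul_le_mul h1 h2
        _ = v ^ (2 + v) := by rw [pow_add]
        _ ≤ v ^ (2 * v) := Nat.pow_le_pow_right (by omega) (by omega)
    have h4 : ((n * v.factorial) ^ 2) ^ 2 ≤ (2 ^ N) ^ 2 := by
      calc ((n * v.factorial) ^ 2) ^ 2 ≤ ((v ^ (2 * v)) ^ 2) ^ 2 :=
            Nat.pow_le_pow_left (Nat.pow_le_pow_left h3 2) 2
        _ = (v ^ 8) ^ v := by rw [← pow_mul, ← pow_mul, ← pow_mul]; congr 1; ring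
        _ ≤ (2 ^ (v - 1)) ^ v := Nat.pow_le_pow_left (pow_eight_le v hv) v
        _ = 2 ^ (N * 2) := by rw [← pow_mul, hN2]; congr 1; ring
        _ = (2 ^ N) ^ 2 := by rw [pow_mul]
    exact (Nat.pow_le_pow_iff_left (by norm_num)).mp h4
  -- raise the wanted inequality to the power 50
  refine lt_of_pow_lt_pow_left₀ 50 (Nat.zero_le _) ?_
  have hB : (9 : ℕ) ^ 5 ≤ 2 ^ 16 := by norm_num
  have hC : ((9 : ℕ) ^ N) ^ 50 ≤ 2 ^ (160 * N) := by
    calc ((9 : ℕ) ^ N) ^ 50 = (9 ^ 5) ^ (10 * N) := by
          rw [← pow_mul, ← pow_mul]; congr 1; ring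
      _ ≤ (2 ^ 16) ^ (10 * N) := Nat.pow_le_pow_left hB _
      _ = 2 ^ (160 * N) := by rw [← pow_mul]; congr 1; ring
  have hD : (2 : ℕ) ^ (144 * N) ≤ (8 ^ (N - N / 25)) ^ 50 := by
    calc (2 : ℕ) ^ (144 * N) ≤ 2 ^ (3 * ((N - N / 25) * 50)) :=
          Nat.pow_le_pow_right (by norm_num) (by omega)
      _ = (8 ^ (N - N / 25)) ^ 50 := by
          rw [pow_mul]; norm_num [← pow_mul]
  have hE : ((n * v.factorial)) ^ 50 ≤ 2 ^ (25 * N) := by
    calc ((n * v.factorial)) ^ 50 = ((n * v.factorial) ^ 2) ^ 25 := by rw [← pow_mul]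
      _ ≤ (2 ^ N) ^ 25 := Nat.pow_le_pow_left hA 25
      _ = 2 ^ (25 * N) := by rw [← pow_mul]; congr 1; ring
  calc (n * v.factorial * 9 ^ N) ^ 50 = (n * v.factorial) ^ 50 * (9 ^ N) ^ 50 := by
        rw [mul_pow]
    _ ≤ 2 ^ (25 * N) * 2 ^ (160 * N) := Nat.mul_le_mul hE hC
    _ = 2 ^ (185 * N) := by rw [← pow_add]; congr 1; ring
    _ < 2 ^ (194 * N) := Nat.pow_lt_pow_right (by norm_num) (by omega)
    _ = 2 ^ (50 * N) * 2 ^ (144 * N) := by rw [← pow_add]; congr 1; ring
    _ ≤ 2 ^ (50 * N) * (8 ^ (N - N / 25)) ^ 50 := Nat.mul_le_mul_left _ hD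
    _ = (2 ^ N * 8 ^ (N - N / 25)) ^ 50 := by
        rw [mul_pow, ← pow_mul 2 N 50]; congr 2; ring

/-- For `v ≥ 64` and at most `(v choose 2) + 2` given graphs there is a graph that is far from all
isomorphic copies of the given ones. -/
lemma exists_far_graph {v : ℕ} (hv : 64 ≤ v) (C : Finset (SimpleGraph (Fin v)))
    (hC : #C ≤ v.choose 2 + 2) :
    ∃ G : SimpleGraph (Fin v), ∀ H ∈ C, ∀ σ : Equiv.Perm (Fin v),
      v.choose 2 / 25 < editDist (H.comap σ) G := by
  classical
  set E : Finset (Sym2 (Fin v)) := (⊤ : SimpleGraph (Fin v)).edgeFinset with hE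
  have hEc : #E = v.choose 2 := by
    rw [hE, SimpleGraph.card_edgeFinset_top_eq_card_choose_two, Fintype.card_fin]
  let f : SimpleGraph (Fin v) × Equiv.Perm (Fin v) → Finset (Sym2 (Fin v)) :=
    fun p => (p.1.comap p.2).edgeSet.toFinset
  let C' : Finset (Finset (Sym2 (Fin v))) := (C ×ˢ Finset.univ).image f
  have hC' : #C' ≤ #C * v.factorial := by
    refine card_image_le.trans ?_
    rw [card_product, Finset.card_univ, Fintype.card_perm, Fintype.card_fin]
  have hsub : ∀ T ∈ C', T ⊆ E := by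
    intro T hT
    obtain ⟨p, _, rfl⟩ := mem_image.mp hT
    intro e he
    rw [hE, SimpleGraph.mem_edgeFinset]
    exact SimpleGraph.edgeSet_mono le_top (Set.mem_toFinset.mp he)
  have hnum : #C' * 9 ^ #E < 2 ^ #E * 8 ^ (#E - v.choose 2 / 25) := by
    rw [hEc]
    exact lt_of_le_of_lt (Nat.mul_le_mul_right _ hC') (numeric v hv _ hC)
  obtain ⟨S, hSE, hS⟩ := exists_far_finset E C' hsub _ hnum
  refine ⟨SimpleGraph.fromEdgeSet (S : Set (Sym2 (Fin v))), ?_⟩
  intro H hH σ
  have hmem : f (H, σ) ∈ C' := mem_image.mpr ⟨(H, σ), by simp [hH], rfl⟩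
  have h1 := hS _ hmem
  have hP : (SimpleGraph.fromEdgeSet (S : Set (Sym2 (Fin v)))).edgeSet = S := by
    rw [SimpleGraph.edgeSet_fromEdgeSet]
    ext e
    constructor
    · exact fun h => h.1
    · intro h
      refine ⟨h, fun hd => ?_⟩
      have := hSE h
      rw [hE, SimpleGraph.mem_edgeFinset] at this
      exact (⊤ : SimpleGraph (Fin v)).not_isDiag_of_mem_edgeSet this hd
  unfold editDist
  rw [hP]
  have h2 : symmDiff (H.comap σ).edgeSet (S : Set (Sym2 (Fin v)))
      = ((symmDiff S (f (H, σ)) : Finset (Sym2 (Fin v))) : Set (Sym2 (Fin v))) := by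
    rw [Finset.coe_symmDiff, symmDiff_comm]
    simp [f]
  rw [h2, Set.ncard_coe_finset]
  exact h1

/-- The centres: for `v ≥ 64` there are graphs `G_0, …, G_{N}` (with `N = v choose 2`)
that are pairwise far, up to isomorphism, and far from the empty and the complete graph. -/
lemma exists_centres {v : ℕ} (hv : 64 ≤ v) :
    ∃ G : ℕ → SimpleGraph (Fin v), ∀ t < v.choose 2,
      (∀ s < t, ∀ σ : Equiv.Perm (Fin v), v.choose 2 / 25 < editDist ((G s).comap σ) (G t)) ∧
      v.choose 2 / 25 < editDist ⊥ (G t) ∧ v.choose 2 / 25 < editDist ⊤ (G t) := by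
  classical
  have key : ∀ n ≤ v.choose 2, ∃ G : ℕ → SimpleGraph (Fin v), ∀ t < n,
      (∀ s < t, ∀ σ : Equiv.Perm (Fin v), v.choose 2 / 25 < editDist ((G s).comap σ) (G t)) ∧
      v.choose 2 / 25 < editDist ⊥ (G t) ∧ v.choose 2 / 25 < editDist ⊤ (G t) := by
    intro n
    induction n with
    | zero => intro _; exact ⟨fun _ => ⊥, fun t ht => absurd ht (Nat.not_lt_zero t)⟩
    | succ n ih =>
      intro hn
      obtain ⟨G, hG⟩ := ih (by omega)
      let C : Finset (SimpleGraph (Fin v)) := insert ⊥ (insert ⊤ ((Finset.range n).image G))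
      have hC : #C ≤ v.choose 2 + 2 := by
        refine (card_insert_le _ _).trans ?_
        have h1 := card_insert_le (⊤ : SimpleGraph (Fin v)) ((Finset.range n).image G)
        have h2 : #((Finset.range n).image G) ≤ n := by
          simpa using (card_image_le (s := Finset.range n) (f := G))
        omega
      obtain ⟨K, hK⟩ := exists_far_graph hv C hC
      refine ⟨Function.update G n K, ?_⟩
      intro t ht
      rcases Nat.lt_succ_iff_lt_or_eq.mp ht with h | h
      · have hne : t ≠ n := by omega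
        rw [Function.update_of_ne hne]
        refine ⟨?_, (hG t h).2⟩
        intro s hs σ
        rw [Function.update_of_ne (by omega)]
        exact (hG t h).1 s hs σ
      · subst h
        rw [Function.update_self]
        refine ⟨?_, ?_, ?_⟩
        · intro s hs σ
          rw [Function.update_of_ne (by omega)]
          have hmem : G s ∈ C := by
            simp only [C, mem_insert, mem_image, mem_range]
            exact Or.inr (Or.inr ⟨s, hs, rfl⟩)
          exact hK (G s) hmem σ
        · have := hK ⊥ (by simp [C]) (Equiv.refl _)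
          simpa using this
        · have := hK ⊤ (by simp [C]) (Equiv.refl _)
          simpa using this
  exact key _ le_rfl

/-! ### The property: the complement of the holes around the centres -/

/-- The chosen centres of the holes. -/
noncomputable def centres (v : ℕ) : ℕ → SimpleGraph (Fin v) :=
  if h : 64 ≤ v then (exists_centres h).choose else fun _ => ⊥

lemma centres_spec {v : ℕ} (hv : 64 ≤ v) : ∀ t < v.choose 2,
    (∀ s < t, ∀ σ : Equiv.Perm (Fin v),
      v.choose 2 / 25 < editDist ((centres v s).comap σ) (centres v t)) ∧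
      v.choose 2 / 25 < editDist ⊥ (centres v t) ∧
      v.choose 2 / 25 < editDist ⊤ (centres v t) := by
  have h : centres v = (exists_centres hv).choose := by
    unfold centres; rw [dif_pos hv]
  rw [h]
  exact (exists_centres hv).choose_spec

/-- The property: all graphs outside the open balls of radius `t` around (the isomorphic copies
of) the centres `G_t`, `t ≤ (v choose 2)/100`. -/
noncomputable def holeProperty : GraphProperty where
  graphs v := {H | ∀ t ≤ v.choose 2 / 100, ∀ σ : Equiv.Perm (Fin v),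
    t ≤ editDist ((centres v t).comap σ) H}
  iso_closed := by
    rintro v G H ⟨φ⟩ hG t ht σ
    have h1 : H.comap (φ.toEquiv : Fin v → Fin v) = G := by
      ext a b
      exact φ.map_rel_iff
    have h2 := editDist_comap φ.toEquiv ((centres v t).comap σ) H
    rw [← h2, h1]
    have h3 : ((centres v t).comap σ).comap (φ.toEquiv : Fin v → Fin v)
        = (centres v t).comap ((σ * φ.toEquiv : Equiv.Perm (Fin v)) : Fin v → Fin v) := by
      ext a b; rfl
    have h4 := hG t ht (σ * φ.toEquiv)
    rw [← h3] at h4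
    exact h4

lemma editDist_bot {v : ℕ} (G : SimpleGraph (Fin v)) : editDist ⊥ G = G.edgeSet.ncard := by
  unfold editDist
  rw [SimpleGraph.edgeSet_bot]
  congr 1
  ext e; simp [Set.mem_symmDiff]

lemma editDist_top {v : ℕ} (G : SimpleGraph (Fin v)) :
    editDist ⊤ G + G.edgeSet.ncard = v.choose 2 := by
  have hsub : G.edgeSet ⊆ (⊤ : SimpleGraph (Fin v)).edgeSet :=
    SimpleGraph.edgeSet_mono le_top
  unfold editDist
  have : symmDiff (⊤ : SimpleGraph (Fin v)).edgeSet G.edgeSet
      = (⊤ : SimpleGraph (Fin v)).edgeSet \ G.edgeSet := by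
    ext e
    simp only [Set.mem_symmDiff, Set.mem_sdiff]
    constructor
    · rintro (h | h)
      · exact h
      · exact absurd (hsub h.1) h.2
    · exact fun h => Or.inl h
  rw [this, Set.ncard_sdiff hsub (Set.toFinite _), ncard_top]
  have h2 : G.edgeSet.ncard ≤ v.choose 2 := by
    rw [← ncard_top]; exact Set.ncard_le_ncard hsub (Set.toFinite _)
  omega

/-- A graph within distance `t` of the centre `G_t` can leave all holes with at most `t` edits. -/
lemma exit_hole {v : ℕ} (hv : 64 ≤ v) (t : ℕ) (ht : t ≤ v.choose 2 / 100)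
    (H : SimpleGraph (Fin v)) (hH : editDist (centres v t) H ≤ t) :
    ∃ P ∈ holeProperty.graphs v, editDist H P ≤ t := by
  set N := v.choose 2 with hN
  have hNpos : 0 < N := by rw [hN]; exact Nat.choose_pos (by omega)
  have htN : t < N := by omega
  obtain ⟨hlt, hbot, htop⟩ := centres_spec hv t htN
  rw [editDist_bot] at hbot
  have htop' := editDist_top (centres v t)
  set m := (centres v t).edgeSet.ncard with hm
  have e1 : m ≤ H.edgeSet.ncard + editDist (centres v t) H := card_le_add_editDist _ _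
  have e2 : H.edgeSet.ncard ≤ m + editDist (centres v t) H := by
    have := card_le_add_editDist H (centres v t)
    rw [editDist_comm] at this
    exact this
  -- the exit point
  obtain ⟨P, hP1, hP2⟩ : ∃ P : SimpleGraph (Fin v), editDist H P ≤ t ∧
      (P.edgeSet.ncard + t = m ∨ P.edgeSet.ncard = m + t) := by
    rcases Nat.lt_or_ge m H.edgeSet.ncard with h | h
    · obtain ⟨P, h1, h2⟩ := exists_add H (m + t - H.edgeSet.ncard) (by omega)
      exact ⟨P, by omega, Or.inr (by omega)⟩
    · obtain ⟨P, h1, h2⟩ := exists_remove H (H.edgeSet.ncard + t - m) (by omega)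
      exact ⟨P, by omega, Or.inl (by omega)⟩
  refine ⟨P, ?_, hP1⟩
  intro s hs σ
  rcases eq_or_ne s t with rfl | hne
  · have c1 := card_le_add_editDist ((centres v s).comap σ) P
    have c2 := card_le_add_editDist P ((centres v s).comap σ)
    rw [editDist_comm P] at c2
    rw [card_comap] at c1 c2
    omega
  · have hfar : N / 25 < editDist ((centres v s).comap σ) (centres v t) := by
      rcases Nat.lt_or_ge s t with h | h
      · exact hlt s h σ
      · have hts : t < s := by omega
        have h1 := (centres_spec hv s (by omega)).1 t hts σ⁻¹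
        have h2 := editDist_comap σ⁻¹ ((centres v s).comap σ) (centres v t)
        have h3 : ((centres v s).comap σ).comap (σ⁻¹ : Equiv.Perm (Fin v)) = centres v s := by
          ext a b
          simp
        rw [h3, editDist_comm] at h2
        rw [← h2]
        exact h1
    have t1 := editDist_triangle ((centres v s).comap σ) P (centres v t)
    have t2 := editDist_triangle P H (centres v t)
    rw [editDist_comm P H, editDist_comm H (centres v t)] at t2
    omega

/-- `N = v choose 2` is at least `v` for `v ≥ 3`. -/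
lemma le_choose_two {v : ℕ} (hv : 3 ≤ v) : v ≤ v.choose 2 := by
  have hN2 : v.choose 2 * 2 = v * (v - 1) := by
    rw [Nat.choose_two_right]
    exact Nat.div_mul_cancel (Nat.even_mul_pred_self v).two_dvd
  have : v * 2 ≤ v * (v - 1) := Nat.mul_le_mul_left _ (by omega)
  omega

/-- The strong form for the constructed property. -/
lemma strong (ε : ℝ) (h0 : 0 < ε) (h1 : ε < 1 / 100) : ∃ v₀ : ℕ, ∀ v ≥ v₀,
    (far (prox ε v) (holeProperty.graphs v)).Nonempty ∧
    ∃ G ∈ far (prox ε v) (far (prox ε v) (holeProperty.graphs v)),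
      ((prox ε v - 1 : ℝ) : EReal) ≤ distTo G (holeProperty.graphs v) := by
  refine ⟨max 64 ⌈1 / (1 / 100 - ε)⌉₊, ?_⟩
  intro v hv
  have hv64 : 64 ≤ v := le_trans (le_max_left _ _) hv
  have hv2 : 1 / (1 / 100 - ε) ≤ (v : ℝ) := by
    refine (Nat.le_ceil _).trans ?_
    exact_mod_cast le_trans (le_max_right _ _) hv
  have hNv : v ≤ v.choose 2 := le_choose_two (by omega)
  have hpos : 0 < 1 / 100 - ε := by linarith
  have hNv' : (v : ℝ) ≤ (v.choose 2 : ℝ) := by exact_mod_cast hNv
  have hvpos : (0 : ℝ) < v := by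
    have : (0 : ℕ) < v := by omega
    exact_mod_cast this
  have hbig : 1 ≤ (1 / 100 - ε) * (v.choose 2 : ℝ) := by
    rw [div_le_iff₀ hpos] at hv2
    nlinarith
  have hδpos : 0 < prox ε v := mul_pos h0 (lt_of_lt_of_le hvpos hNv')
  set M := v.choose 2 / 100 with hM
  have hMr : (v.choose 2 : ℝ) / 100 < (M : ℝ) + 1 := by
    have := Nat.lt_div_mul_add (a := v.choose 2) (b := 100) (by norm_num)
    have h2 : v.choose 2 < 100 * (M + 1) := by omega
    have h3 : (v.choose 2 : ℝ) < 100 * ((M : ℝ) + 1) := by exact_mod_cast h2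
    linarith
  have hδM : prox ε v ≤ M := by
    unfold prox
    nlinarith
  have hdist : ∀ t ≤ M, ((t : ℝ) : EReal) ≤ distTo (centres v t) (holeProperty.graphs v) := by
    intro t ht
    unfold distTo
    refine le_iInf₂ ?_
    intro H hH
    have h2 := hH t ht (Equiv.refl _)
    have h3 : (centres v t).comap ((Equiv.refl (Fin v) : Equiv.Perm (Fin v)) : Fin v → Fin v)
        = centres v t := by ext a b; rfl
    rw [h3] at h2
    exact_mod_cast h2
  refine ⟨⟨centres v M, ?_⟩, ?_⟩
  · change ((prox ε v : ℝ) : EReal) ≤ _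
    refine le_trans ?_ (hdist M le_rfl)
    exact_mod_cast hδM
  · -- the centre with index `t = ⌈δ⌉ - 1`
    obtain ⟨t, ht⟩ : ∃ t : ℕ, ⌈prox ε v⌉₊ = t + 1 :=
      ⟨⌈prox ε v⌉₊ - 1, by have := Nat.ceil_pos.mpr hδpos; omega⟩
    have ht1 : (t : ℝ) < prox ε v := by
      have := Nat.ceil_lt_add_one hδpos.le
      rw [ht] at this
      push_cast at this
      linarith
    have ht2 : prox ε v - 1 ≤ (t : ℝ) := by
      have := Nat.le_ceil (prox ε v)
      rw [ht] at this
      push_cast at this
      linarith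
    have ht3 : t ≤ M := by
      have : (t : ℝ) ≤ M := ht1.le.trans hδM
      exact_mod_cast this
    refine ⟨centres v t, ?_, ?_⟩
    · change ((prox ε v : ℝ) : EReal) ≤ _
      unfold distTo
      refine le_iInf₂ ?_
      intro H hH
      by_contra hcon
      rw [not_le] at hcon
      have hlt : (editDist (centres v t) H : ℝ) < prox ε v := by exact_mod_cast hcon
      have hle : editDist (centres v t) H ≤ t := by
        have : editDist (centres v t) H < ⌈prox ε v⌉₊ := Nat.lt_ceil.mpr hlt
        omega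
      obtain ⟨P, hP, hd⟩ := exit_hole hv64 t ht3 H hle
      have hfar : ((prox ε v : ℝ) : EReal) ≤ ((editDist H P : ℝ) : EReal) := by
        refine le_trans hH ?_
        exact iInf₂_le P hP
      have hfar' : prox ε v ≤ (editDist H P : ℝ) := by exact_mod_cast hfar
      have : (editDist H P : ℝ) ≤ t := by exact_mod_cast hd
      linarith
    · refine le_trans ?_ (hdist t ht3)
      exact_mod_cast ht2

/-- **Main theorem.** There is a graph property whose dual problem does not reduce to tolerant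
testing in the dense model. More strongly, for this one property and *every*
`ε ∈ (0, 1/100)`, for all sufficiently large `v`, with `δ = ε * (v choose 2)`:
`F_δ(P_v)` is nonempty, and `F_δ(F_δ(P_v))` contains a graph whose distance from `P_v`
is at least `δ - 1`. -/
theorem result : ∃ P : GraphProperty, ¬ DualReducesToTolerant P ∧
    ∀ ε : ℝ, 0 < ε → ε < 1 / 100 → ∃ v₀ : ℕ, ∀ v ≥ v₀,
      (far (prox ε v) (P.graphs v)).Nonempty ∧
      ∃ G ∈ far (prox ε v) (far (prox ε v) (P.graphs v)),
        ((prox ε v - 1 : ℝ) : EReal) ≤ distTo G (P.graphs v) := by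
  refine ⟨holeProperty, ?_, strong⟩
  rintro ⟨ε₀, hε₀, h⟩
  set ε := min ε₀ (1 / 200) with hε
  have hεpos : 0 < ε := lt_min hε₀ (by norm_num)
  have hεlt : ε < 1 / 100 := lt_of_le_of_lt (min_le_right _ _) (by norm_num)
  obtain ⟨α, hα, v₀, hv₀⟩ := h ε hεpos (min_le_left _ _)
  obtain ⟨v₁, hv₁⟩ := strong ε hεpos hεlt
  have hα' : 0 < 1 - α := by linarith
  set v := max (max v₀ v₁) (max 3 (⌈1 / ((1 - α) * ε)⌉₊ + 1)) with hv
  have h0 : v₀ ≤ v := le_trans (le_max_left _ _) (le_max_left _ _)
  have h1 : v₁ ≤ v := le_trans (le_max_right _ _) (le_max_left _ _)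
  have h3 : 3 ≤ v := le_trans (le_max_left _ _) (le_max_right _ _)
  have h4 : ⌈1 / ((1 - α) * ε)⌉₊ + 1 ≤ v := le_trans (le_max_right _ _) (le_max_right _ _)
  obtain ⟨_, G, hG, hd⟩ := hv₁ v h1
  have hle : distTo G (holeProperty.graphs v) ≤ ((α * prox ε v : ℝ) : EReal) := hv₀ v h0 hG
  have hle2 : prox ε v - 1 ≤ α * prox ε v := by
    have := hd.trans hle
    exact_mod_cast this
  have hNv : (v : ℝ) ≤ (v.choose 2 : ℝ) := by exact_mod_cast le_choose_two h3
  have hbig : 1 / ((1 - α) * ε) < (v : ℝ) := by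
    have h5 : (⌈1 / ((1 - α) * ε)⌉₊ : ℝ) + 1 ≤ v := by exact_mod_cast h4
    have h6 := Nat.le_ceil (1 / ((1 - α) * ε))
    linarith
  have hprod : 0 < (1 - α) * ε := mul_pos hα' hεpos
  rw [div_lt_iff₀ hprod] at hbig
  have : 1 < (1 - α) * prox ε v := by
    unfold prox
    calc 1 < (v : ℝ) * ((1 - α) * ε) := hbig
      _ ≤ (v.choose 2 : ℝ) * ((1 - α) * ε) := mul_le_mul_of_nonneg_right hNv hprod.le
      _ = (1 - α) * (ε * (v.choose 2 : ℝ)) := by ring
  linarith

end Pool.Agent.Results.MP_cccbef_lc.FarFromFar
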